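import Mathlib

namespace Pool.Agent.Results.MP_7f565b_co.Q1

variable {V : Type} [Fintype V] [DecidableEq V]

/-- w lies in the closed neighbourhood of s -/
def CN (G : SimpleGraph V) (s w : V) : Prop := w = s ∨ G.Adj s w

/-- dominating set -/
def Dom (G : SimpleGraph V) (S : Finset V) : Prop := ∀ w, ∃ s ∈ S, CN G s w

/-- irredundant set -/
def Irr (G : SimpleGraph V) (S : Finset V) : Prop :=
  ∀ s ∈ S, ∃ w, CN G s w ∧ ∀ t ∈ S, t ≠ s → ¬ CN G t w

/-- domination number -/
noncomputable def gamma (G : SimpleGraph V) : ℕ := sInf {k | ∃ S, Dom G S ∧ S.card = k}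

/-- lower irredundance number -/
noncomputable def ir (G : SimpleGraph V) : ℕ := sInf {k | ∃ S, Maximal (Irr G) S ∧ S.card = k}

/-- edge-critical for a parameter -/
def Crit (f : SimpleGraph V → ℕ) (G : SimpleGraph V) : Prop :=
  ∀ u v, u ≠ v → ¬ G.Adj u v → f (G ⊔ SimpleGraph.edge u v) < f G

def nb : List ℕ := [3638, 10809, 12233, 14054, 11811, 3611, 5388, 12556, 9412, 2111, 12669, 8759, 9416, 7582]

def G0 : SimpleGraph (Fin 14) where
  Adj a b := (nb.getD a 0).testBit b = true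
  symm := ⟨by decide +kernel⟩
  loopless := ⟨by decide +kernel⟩

instance : DecidableRel G0.Adj := fun a b =>
  inferInstanceAs (Decidable ((nb.getD a 0).testBit b = true))

instance : DecidableRel (CN G0) := fun a b => by unfold CN; infer_instance

omit [Fintype V] in
lemma irr_mono {G : SimpleGraph V} {S T : Finset V} (h : S ⊆ T) (hT : Irr G T) : Irr G S :=
  fun s hs => let ⟨w, h1, h2⟩ := hT s (h hs); ⟨w, h1, fun t ht => h2 t (h ht)⟩

lemma ex_max (G : SimpleGraph V) : ∃ S, Maximal (Irr G) S := by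
  obtain ⟨S, -, h⟩ := Finite.exists_le_maximal (p := Irr G) (a := ∅) (by simp [Irr])
  exact ⟨S, h⟩

lemma l1 : ∀ a b : Fin 14, ∃ w, ¬ CN G0 a w ∧ ¬ CN G0 b w := by decide +kernel

lemma l2 : ∀ u v : Fin 14, u ≠ v → ¬ G0.Adj u v → ∃ x, (∀ w, w = v ∨ CN G0 u w ∨ CN G0 x w) ∨
    ∀ w, w = u ∨ CN G0 v w ∨ CN G0 x w := by decide +kernel

lemma l3 : Irr G0 {0, 1} := by unfold Irr; decide +kernel

lemma l4 : ∀ v : Fin 14, v ∉ ({0, 1} : Finset (Fin 14)) → ¬ Irr G0 (insert v {0, 1}) := by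
  unfold Irr; decide +kernel

lemma l5 : ∀ a : Fin 14, ∃ w, w ≠ a ∧ ¬ G0.Adj a w ∧ s(a, w) ≠ s(0, 3) := by decide +kernel

lemma cn_sup {G : SimpleGraph V} {u v s w : V} (h : CN G s w) :
    CN (G ⊔ SimpleGraph.edge u v) s w := h.imp id Or.inl

theorem result : ∃ (V : Type) (_ : Fintype V) (_ : DecidableEq V) (G : SimpleGraph V),
    Crit gamma G ∧ ¬ Crit ir G := by
  refine ⟨Fin 14, inferInstance, inferInstance, G0, ?_, fun h => ?_⟩
  · have g3 : 3 ≤ gamma G0 := by
      refine le_csInf ⟨_, Finset.univ, fun w => ⟨w, by simp, Or.inl rfl⟩, rfl⟩ ?_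
      rintro k ⟨S, hS, rfl⟩
      by_contra hn
      obtain ⟨a, b, hab⟩ : ∃ a b, S ⊆ {a, b} := by
        obtain ⟨T, h1, h2⟩ := Finset.exists_superset_card_eq (s := S) (n := 2) (by omega) (by simp)
        obtain ⟨a, b, -, rfl⟩ := Finset.card_eq_two.mp h2
        exact ⟨a, b, h1⟩
      obtain ⟨w, h1, h2⟩ := l1 a b
      obtain ⟨s, hs, h3⟩ := hS w
      rcases Finset.mem_insert.mp (hab hs) with rfl | h
      · exact h1 h3
      · exact h2 (Finset.mem_singleton.mp h ▸ h3)
    intro u v huv hn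
    refine lt_of_lt_of_le ?_ g3
    obtain ⟨x, h | h⟩ := l2 u v huv hn
    · refine lt_of_le_of_lt (Nat.sInf_le ⟨{u, x}, fun w => ?_, rfl⟩)
        (lt_of_le_of_lt Finset.card_le_two (by norm_num))
      rcases h w with rfl | h | h
      · exact ⟨u, by simp, Or.inr (Or.inr (by simp [SimpleGraph.edge_adj, huv]))⟩
      · exact ⟨u, by simp, cn_sup h⟩
      · exact ⟨x, by simp, cn_sup h⟩
    · refine lt_of_le_of_lt (Nat.sInf_le ⟨{v, x}, fun w => ?_, rfl⟩)
        (lt_of_le_of_lt Finset.card_le_two (by norm_num))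
      rcases h w with rfl | h | h
      · exact ⟨v, by simp, Or.inr (Or.inr (by simp [SimpleGraph.edge_adj, huv.symm]))⟩
      · exact ⟨v, by simp, cn_sup h⟩
      · exact ⟨x, by simp, cn_sup h⟩
  · have i2 : ir G0 ≤ 2 := by
      refine Nat.sInf_le ⟨{0, 1}, ⟨l3, fun T hT hs v hv => ?_⟩, by decide⟩
      by_contra hn
      exact l4 v hn (irr_mono (Finset.insert_subset hv hs) hT)
    have i3 : 2 ≤ ir (G0 ⊔ SimpleGraph.edge 0 3) := by
      obtain ⟨S0, h0⟩ := ex_max (G0 ⊔ SimpleGraph.edge 0 3)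
      refine le_csInf ⟨_, S0, h0, rfl⟩ ?_
      rintro k ⟨S, hS, rfl⟩
      by_contra hn
      obtain ⟨a, ha⟩ : ∃ a, S ⊆ {a} := Finset.card_le_one_iff_subset_singleton.mp (by omega)
      obtain ⟨w, h1, h2, h3⟩ := l5 a
      have na : ¬ (G0 ⊔ SimpleGraph.edge 0 3).Adj a w := by
        rintro (h | h)
        · exact h2 h
        · rw [SimpleGraph.edge_adj] at h
          rcases h.1 with ⟨rfl, rfl⟩ | ⟨rfl, rfl⟩
          · exact h3 rfl
          · exact h3 Sym2.eq_swap
      have hI : Irr (G0 ⊔ SimpleGraph.edge 0 3) {a, w} := by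
        intro s hs
        refine ⟨s, Or.inl rfl, fun t ht hne h => ?_⟩
        simp only [Finset.mem_insert, Finset.mem_singleton] at hs ht
        rcases h with h | h
        · exact hne h.symm
        · rcases hs with rfl | rfl <;> rcases ht with rfl | rfl
          · exact hne rfl
          · exact na h.symm
          · exact na h
          · exact hne rfl
      have := hS.2 hI (ha.trans (by simp))
      have := Finset.card_le_card this
      rw [Finset.card_pair h1.symm] at this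
      omega
    have := h 0 3 (by decide) (by decide)
    omega

end Pool.Agent.Results.MP_7f565b_co.Q1
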